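import Pool.Agent.Y947.RL.Stm2

/-!
# Project RL of helper947, statement H1 (helper578)

The energy inequality for a finite set of primes.
-/

set_option autoImplicit false

open Finset Polynomial Module Pool.Agent.H388SL Pool.Agent.Y947.DL Pool.Agent.Y947.RL

namespace Pool.Agent.Y578.RL

/-- the exponents used for the prime `p` -/
noncomputable def SS (m p : ℕ) : Finset ℕ :=
  if p ∣ m then (range m).filter fun s => s.Coprime m ∧ s ≡ p [MOD m / p] else {p}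

lemma SS_coprime {m p : ℕ} (hp : p.Prime) {s : ℕ} (hs : s ∈ SS m p) : s.Coprime m := by
  unfold SS at hs
  split_ifs at hs with h
  · exact (mem_filter.1 hs).2.1
  · rw [mem_singleton] at hs
    subst hs
    exact (Nat.Prime.coprime_iff_not_dvd hp).2 h

lemma coprime_div {m p : ℕ} (hp : p.Prime) (h : p ∣ m) (h2 : ¬ p ^ 2 ∣ m) :
    p.Coprime (m / p) := by
  rw [Nat.Prime.coprime_iff_not_dvd hp]
  rintro ⟨k, hk⟩
  apply h2
  refine ⟨k, ?_⟩
  rw [← Nat.mul_div_cancel' h, hk]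
  ring

lemma SS_nonempty {m p : ℕ} (hm : 0 < m) (hp : p.Prime) (h2 : ¬ p ^ 2 ∣ m) : (SS m p).Nonempty := by
  unfold SS
  split_ifs with h
  · have hcop := coprime_div hp h h2
    obtain ⟨s, hs1, hs2⟩ := Nat.chineseRemainder hcop 1 p
    refine ⟨s % m, mem_filter.2 ⟨mem_range.2 (Nat.mod_lt _ hm), ?_, ?_⟩⟩
    · have e1 : s.Coprime p := by
        have := hs1.gcd_eq
        simpa [Nat.Coprime] using this
      have e2 : s.Coprime (m / p) := by
        have := hs2.gcd_eq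
        rw [Nat.Coprime, this]
        exact hcop
      have e3 : s.Coprime m := by
        have := Nat.Coprime.mul_right e1 e2
        rwa [Nat.mul_div_cancel' h] at this
      rw [Nat.Coprime, ← Nat.gcd_rec, Nat.gcd_comm]
      exact e3
    · have : s % m ≡ s [MOD m / p] := (Nat.mod_modEq s m).of_dvd (Nat.div_dvd_of_dvd h)
      exact this.trans hs2
  · exact singleton_nonempty _

lemma exists_inv {m t : ℕ} (hm : 0 < m) (ht : t.Coprime m) :
    ∃ t' : ℕ, t'.Coprime m ∧ t * t' ≡ 1 [MOD m] := by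
  refine ⟨t ^ (Nat.totient m - 1), ht.pow_left _, ?_⟩
  rw [← pow_succ', Nat.sub_add_cancel (Nat.totient_pos.2 hm)]
  exact Nat.ModEq.pow_totient ht

lemma exists_u {m s t : ℕ} (hm : 0 < m) (hs : s.Coprime m) (ht : t.Coprime m) :
    ∃ u : ℕ, u.Coprime m ∧ s ≡ u * t [MOD m] := by
  obtain ⟨t', h1, h2⟩ := exists_inv hm ht
  refine ⟨s * t', hs.mul_left h1, ?_⟩
  have := (Nat.ModEq.refl s).mul h2
  rw [mul_one] at this
  have h3 : s * (t * t') = s * t' * t := by ring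
  rw [h3] at this
  exact this.symm

lemma mod_coprime {m x : ℕ} (h : x.Coprime m) : (x % m).Coprime m := by
  rw [Nat.Coprime, ← Nat.gcd_rec, Nat.gcd_comm]
  exact h

lemma sum_SS {m p : ℕ} (hm : 0 < m) (h : p ∣ m) {t : ℕ} (ht : t ∈ SS m p) (f : ℕ → ℝ) :
    ∑ s ∈ SS m p, f s = ∑ u ∈ Gset m p, f (u * t % m) := by
  have hSS : SS m p = (range m).filter fun s => s.Coprime m ∧ s ≡ p [MOD m / p] := by
    unfold SS; rw [if_pos h]
  have hd : m / p ∣ m := Nat.div_dvd_of_dvd h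
  rw [hSS] at ht ⊢
  obtain ⟨-, ht1, ht2⟩ := mem_filter.1 ht
  symm
  refine Finset.sum_bij (fun u _ => u * t % m) ?_ ?_ ?_ ?_
  · intro u hu
    obtain ⟨-, hu1, hu2⟩ := mem_filter.1 hu
    refine mem_filter.2 ⟨mem_range.2 (Nat.mod_lt _ hm), mod_coprime (hu1.mul_left ht1), ?_⟩
    have h3 : u * t % m ≡ u * t [MOD m / p] := (Nat.mod_modEq _ m).of_dvd hd
    have h4 := hu2.mul ht2
    rw [one_mul] at h4
    exact h3.trans h4
  · intro u hu v hv huv
    obtain ⟨hu0, hu1, hu2⟩ := mem_filter.1 hu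
    obtain ⟨hv0, hv1, hv2⟩ := mem_filter.1 hv
    have h3 : u * t ≡ v * t [MOD m] := huv
    have h4 : u ≡ v [MOD m] := Nat.ModEq.cancel_right_of_coprime (by
      rw [Nat.gcd_comm]; exact ht1) h3
    exact Nat.ModEq.eq_of_lt_of_lt h4 (mem_range.1 hu0) (mem_range.1 hv0)
  · intro s hs
    obtain ⟨hs0, hs1, hs2⟩ := mem_filter.1 hs
    obtain ⟨t', h1, h2⟩ := exists_inv hm ht1
    refine ⟨s * t' % m, mem_filter.2 ⟨mem_range.2 (Nat.mod_lt _ hm), mod_coprime (hs1.mul_left h1),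
      ?_⟩, ?_⟩
    · have h3 : s * t' % m ≡ s * t' [MOD m / p] := (Nat.mod_modEq _ m).of_dvd hd
      have h4 : s * t' ≡ t * t' [MOD m / p] := (hs2.trans ht2.symm).mul_right _
      exact (h3.trans h4).trans (h2.of_dvd hd)
    · have h3 : s * t' % m * t ≡ s * t' * t [MOD m] := (Nat.mod_modEq _ m).mul_right _
      have h4 : s * t' * t ≡ s [MOD m] := by
        have := (Nat.ModEq.refl s).mul h2
        rw [mul_one] at this
        have h5 : s * (t * t') = s * t' * t := by ring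
        rw [h5] at this
        exact this
      have h6 := h3.trans h4
      change s * t' % m * t % m = s
      rw [h6]
      exact Nat.mod_eq_of_lt (mem_range.1 hs0)
  · intro u _
    rfl

section
variable {K : Type} [Field K] [NumberField K]

lemma EP_symm (ζ α : K) (ε : (K →ₐ[ℚ] ℂ) → ℝ) (p q s t : ℕ) :
    EP ζ α ε p q s t = EP ζ α ε q p t s := by
  classical
  unfold EP
  rw [Finset.sum_comm]
  refine Finset.sum_congr rfl fun σ _ => Finset.sum_congr rfl fun τ _ => ?_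
  by_cases h : (τ ζ) ^ s = (σ ζ) ^ t
  · rw [if_pos h, if_pos h.symm]
    congr 2
    rw [← Complex.norm_conj]
    congr 1
    simp [mul_comm]
  · rw [if_neg h, if_neg (fun h' => h h'.symm)]

/-- `GEN` together with a lower bound for the product -/
lemma gen_bound (hGEN : S_GEN) {m : ℕ} {ζ α : K} (hc : Ctx m ζ α) (ε : (K →ₐ[ℚ] ℂ) → ℝ)
    (hε : ∀ σ, 0 < ε σ ∧ ε σ ≤ 1 / 2) {p q s t u : ℕ} (hp : 0 < p) (hq : 0 < q)
    (hs : s.Coprime m) (ht : t.Coprime m) (hst : s ≡ u * t [MOD m])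
    (hne : ∀ σ : K →ₐ[ℚ] ℂ, ∀ τ ∈ cls ζ ((σ ζ) ^ u), (σ α) ^ p ≠ (τ α) ^ q) {L : ℝ}
    (hL : Real.exp L ≤ ∏ σ : K →ₐ[ℚ] ℂ, ∏ τ ∈ cls ζ ((σ ζ) ^ u), ‖(σ α) ^ p - (τ α) ^ q‖) :
    EP ζ α ε p q s t ≤ -L + finrank ℚ K * ((p + q) * ((lam α + ∑ σ, ε σ) / Nat.totient m)) := by
  have h1 := hGEN K m ζ α hc ε hε p q s t u hp hq hs ht hst hne
  have h2 : L ≤ Real.log (∏ σ : K →ₐ[ℚ] ℂ, ∏ τ ∈ cls ζ ((σ ζ) ^ u),
      ‖(σ α) ^ p - (τ α) ^ q‖) :=
    (Real.le_log_iff_exp_le (lt_of_lt_of_le (Real.exp_pos _) hL)).2 hL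
  refine h1.trans ?_
  have h3 : (finrank ℚ K : ℝ) / Nat.totient m * ((p + q) * (lam α + ∑ σ, ε σ)) =
      finrank ℚ K * ((p + q) * ((lam α + ∑ σ, ε σ) / Nat.totient m)) := by ring
  rw [h3]
  linarith

/-- pairs `(p, 1)` -/
lemma b1 (hGEN : S_GEN) (hFR0 : S_FR0) (hFR1 : S_FR1) (hNV : S_NV) {m : ℕ} {ζ α : K}
    (hc : Ctx m ζ α) (ε : (K →ₐ[ℚ] ℂ) → ℝ) (hε : ∀ σ, 0 < ε σ ∧ ε σ ≤ 1 / 2) {p : ℕ}
    (hp : p.Prime) (h2 : ¬ p ^ 2 ∣ m) {s : ℕ} (hs : s ∈ SS m p) :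
    EP ζ α ε p 1 s 1 ≤ finrank ℚ K * (-(Real.log p / ee m ζ α p) +
      (p + 1) * ((lam α + ∑ σ, ε σ) / Nat.totient m)) := by
  have hp0 : (0 : ℝ) < p := by exact_mod_cast hp.pos
  have hsc := SS_coprime hp hs
  have hne : ∀ σ : K →ₐ[ℚ] ℂ, ∀ τ ∈ cls ζ ((σ ζ) ^ s), (σ α) ^ p ≠ τ α := by
    intro σ τ _
    have := hNV K α hc.h0 hc.hroot p 1 hp.pos one_pos hp.one_lt.ne' σ τ
    simpa using this
  have key : Real.exp (finrank ℚ K * (Real.log p / ee m ζ α p)) ≤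
      ∏ σ : K →ₐ[ℚ] ℂ, ∏ τ ∈ cls ζ ((σ ζ) ^ s), ‖(σ α) ^ p - τ α‖ := by
    by_cases h : p ∣ m
    · have hs' : s ≡ p [MOD m / p] := by
        unfold SS at hs
        rw [if_pos h] at hs
        exact (mem_filter.1 hs).2.2
      have h3 := hFR1 K m ζ α hc p hp h h2 s hsc hs' hne
      refine le_trans (le_of_eq ?_) h3
      rw [Real.rpow_def_of_pos hp0]
      congr 1
      unfold ee
      rw [if_pos h]
      rw [div_div_eq_mul_div]
      ring
    · have hs' : s = p := by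
        unfold SS at hs
        rw [if_neg h] at hs
        exact mem_singleton.1 hs
      subst hs'
      have h3 := hFR0 K m ζ α hc.hm hc.hζ hc.hα s hp h hne
      refine le_trans (le_of_eq ?_) h3
      unfold ee
      rw [if_neg h, div_one, Real.exp_nat_mul, Real.exp_log hp0]
  have h4 := gen_bound hGEN hc ε hε (p := p) (q := 1) (s := s) (t := 1) (u := s) hp.pos one_pos hsc
    (Nat.coprime_one_left m) (by rw [mul_one]) (by simpa using hne)
    (L := finrank ℚ K * (Real.log p / ee m ζ α p)) (by simpa using key)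
  refine h4.trans (le_of_eq ?_)
  push_cast
  ring

/-- pairs of different primes -/
lemma b2 (hGEN : S_GEN) (hNRM : S_NRM) (hNV : S_NV) {m : ℕ} {ζ α : K}
    (hc : Ctx m ζ α) (ε : (K →ₐ[ℚ] ℂ) → ℝ) (hε : ∀ σ, 0 < ε σ ∧ ε σ ≤ 1 / 2) {p q : ℕ}
    (hp : p.Prime) (hq : q.Prime) (hpq : p ≠ q) {s t : ℕ} (hs : s ∈ SS m p) (ht : t ∈ SS m q) :
    EP ζ α ε p q s t ≤ finrank ℚ K * ((p + q) * ((lam α + ∑ σ, ε σ) / Nat.totient m)) := by
  have hsc := SS_coprime hp hs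
  have htc := SS_coprime hq ht
  obtain ⟨u, hu1, hu2⟩ := exists_u hc.hm hsc htc
  have hne : ∀ σ : K →ₐ[ℚ] ℂ, ∀ τ ∈ cls ζ ((σ ζ) ^ u), (σ α) ^ p ≠ (τ α) ^ q := by
    intro σ τ _
    exact hNV K α hc.h0 hc.hroot p q hp.pos hq.pos hpq σ τ
  have h1 := hNRM K m ζ hc.hm hc.hζ (α ^ p) (α ^ q) (hc.hα.pow p) (hc.hα.pow q) u hu1 (by
    intro σ τ h
    rw [map_pow, map_pow]
    exact hne σ τ h)
  simp only [map_pow] at h1
  have h4 := gen_bound hGEN hc ε hε hp.pos hq.pos hsc htc hu2 hne (L := 0) (by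
    rw [Real.exp_zero]; exact h1)
  simpa using h4

/-- pairs with the same prime -/
lemma b3 (hGEN : S_GEN) (hSLF : S_SLF) (hRAM : S_RAM) (hFX : S_FX) {m : ℕ} {ζ α : K}
    (hc : Ctx m ζ α) (ε : (K →ₐ[ℚ] ℂ) → ℝ) (hε : ∀ σ, 0 < ε σ ∧ ε σ ≤ 1 / 2)
    (hε' : ∀ σ τ, σ α = τ α → ε σ = ε τ) {R : ℝ} (hR : EP ζ α ε 1 1 1 1 ≤ finrank ℚ K * R) {p : ℕ}
    (hp : p.Prime) (h2 : ¬ p ^ 2 ∣ m) {t : ℕ} (ht : t ∈ SS m p) :
    ∑ s ∈ SS m p, EP ζ α ε p p s t ≤ (SS m p).card * (finrank ℚ K *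
      (R / ee m ζ α p - (1 - 1 / ee m ζ α p) * Real.log p +
      2 * p * ((lam α + ∑ σ, ε σ) / Nat.totient m))) := by
  have hp0 : (0 : ℝ) < p := by exact_mod_cast hp.pos
  set μ := (lam α + ∑ σ, ε σ) / Nat.totient m with hμ
  have hslf : ∀ s u : ℕ, s ∈ SS m p → s ≡ u * t [MOD m] → Fix ζ α u →
      EP ζ α ε p p s t ≤ finrank ℚ K * (R + 2 * p * μ) := by
    intro s u hs hsu hfix
    have h3 := hSLF K m ζ α hc ε hε hε' p s t u hp.pos (SS_coprime hp hs) (SS_coprime hp ht) hsu hfix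
    have h4 : (finrank ℚ K : ℝ) / Nat.totient m * (2 * p * (lam α + ∑ σ, ε σ)) =
      finrank ℚ K * (2 * p * μ) := by rw [hμ]; ring
    rw [h4] at h3
    calc _ ≤ _ := h3
      _ ≤ _ := by rw [mul_add]; linarith
  by_cases h : p ∣ m
  · obtain ⟨f1, f2, f3, f4⟩ := hFX K m ζ α hc
    have hcard : (Gset m p).card = p - 1 := by rw [f2 p hp h, if_neg h2]
    have hH0 := f4 p hp h
    classical
    have hHG : Hset m p ζ α ⊆ Gset m p := by
      intro u hu
      unfold Hset at hu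
      exact (mem_filter.1 hu).1
    rw [sum_SS hc.hm h ht]
    have hSS : (SS m p).card = p - 1 := by
      have := sum_SS hc.hm h ht (fun _ => (1 : ℝ))
      simp only [sum_const, nsmul_eq_mul, mul_one] at this
      rw [← hcard]
      exact_mod_cast this
    have hmem : ∀ u ∈ Gset m p, u * t % m ∈ SS m p := by
      intro u hu
      have ht' := ht
      unfold SS at ht' ⊢
      rw [if_pos h] at ht' ⊢
      obtain ⟨-, ht1, ht2⟩ := mem_filter.1 ht'
      obtain ⟨-, hu1, hu2⟩ := mem_filter.1 hu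
      refine mem_filter.2 ⟨mem_range.2 (Nat.mod_lt _ hc.hm), mod_coprime (hu1.mul_left ht1), ?_⟩
      have h3 : u * t % m ≡ u * t [MOD m / p] :=
        (Nat.mod_modEq _ m).of_dvd (Nat.div_dvd_of_dvd h)
      have h4 := hu2.mul ht2
      rw [one_mul] at h4
      exact h3.trans h4
    rw [← Finset.sum_sdiff hHG]
    have s1 : ∑ u ∈ Hset m p ζ α, EP ζ α ε p p (u * t % m) t ≤
        (Hset m p ζ α).card * (finrank ℚ K * (R + 2 * p * μ)) := by
      rw [← nsmul_eq_mul]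
      apply Finset.sum_le_card_nsmul
      intro u hu
      exact hslf _ u (hmem u (hHG hu)) (Nat.mod_modEq _ m) (by
        unfold Hset at hu
        exact (mem_filter.1 hu).2)
    have s2 : ∑ u ∈ Gset m p \ Hset m p ζ α, EP ζ α ε p p (u * t % m) t ≤
        (Gset m p \ Hset m p ζ α).card * (finrank ℚ K * (-Real.log p + 2 * p * μ)) := by
      rw [← nsmul_eq_mul]
      apply Finset.sum_le_card_nsmul
      intro u hu
      obtain ⟨hu1, hu2⟩ := mem_sdiff.1 hu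
      have hnf : ¬ Fix ζ α u := fun hf => hu2 (by
        unfold Hset
        exact mem_filter.2 ⟨hu1, hf⟩)
      have huc : u.Coprime m := (mem_filter.1 hu1).2.1
      have hne : ∀ σ : K →ₐ[ℚ] ℂ, ∀ τ ∈ cls ζ ((σ ζ) ^ u), (σ α) ^ p ≠ (τ α) ^ p := by
        intro σ τ hτ heq
        exact f1 u huc hnf σ τ hτ (hc.inj p hp.pos σ τ heq)
      have h3 := hRAM K m ζ α hc.hm hc.hζ hc.hα p hp h u hu1 hne
      have h4 := gen_bound hGEN hc ε hε hp.pos hp.pos (SS_coprime hp (hmem u hu1))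
        (SS_coprime hp ht) (Nat.mod_modEq _ m) hne (L := finrank ℚ K * Real.log p) (by
          rw [Real.exp_nat_mul, Real.exp_log hp0]; exact h3)
      rw [← hμ] at h4
      refine h4.trans (le_of_eq ?_)
      ring
    refine (add_le_add s2 s1).trans (le_of_eq ?_)
    rw [card_sdiff_of_subset hHG, hcard, hSS, Nat.cast_sub (by rw [← hcard]; exact card_le_card hHG),
      Nat.cast_sub hp.one_lt.le]
    have hp1 : ((p : ℝ) - (1 : ℕ)) ≠ 0 := by
      have : (1 : ℝ) < p := by exact_mod_cast hp.one_lt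
      push_cast
      linarith
    have hHne : ((Hset m p ζ α).card : ℝ) ≠ 0 := by exact_mod_cast hH0.ne'
    unfold ee
    rw [if_pos h]
    push_cast at hp1 ⊢
    field_simp
    ring
  · have hSS : SS m p = {p} := by unfold SS; rw [if_neg h]
    have ht' : t = p := by rw [hSS] at ht; exact mem_singleton.1 ht
    have h3 := hslf t 1 ht (by rw [one_mul]) (fun σ => ⟨σ, by rw [pow_one], rfl⟩)
    rw [hSS, sum_singleton, card_singleton]
    unfold ee
    rw [if_neg h]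
    rw [ht'] at h3 ⊢
    refine h3.trans (le_of_eq ?_)
    push_cast
    ring

end

/-- statement H1 -/
theorem h1 : S_PSD → S_GEN → S_SLF → S_FR0 → S_FR1 → S_RAM → S_NRM → S_NV → S_TR → S_FX →
    S_H1 := by
  intro hPSD hGEN hSLF hFR0 hFR1 hRAM hNRM hNV _ hFX K _ _ m ζ α hc ε hε hε' R hR P hP a ha
  set μ := (lam α + ∑ σ, ε σ) / Nat.totient m with hμ
  have hn0 : (0 : ℝ) < finrank ℚ K := by exact_mod_cast finrank_pos
  set n : ℝ := (finrank ℚ K : ℝ) with hn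
  -- cardinalities
  have hcp : ∀ p ∈ P, (0 : ℝ) < (SS m p).card := by
    intro p hp
    exact_mod_cast (SS_nonempty hc.hm (hP p hp).1 (hP p hp).2).card_pos
  have hw : ∀ p ∈ P, (0 : ℝ) < 1 / ((SS m p).card : ℝ) := fun p hp => by
    have := hcp p hp
    positivity
  have hw1 : ∀ p ∈ P, ((SS m p).card : ℝ) * (1 / ((SS m p).card : ℝ)) = 1 := fun p hp => by
    have := hcp p hp
    field_simp
  -- the index set
  let I : Finset (Option (Σ _ : ℕ, ℕ)) := insertNone (P.sigma fun p => SS m p)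
  let pf : Option (Σ _ : ℕ, ℕ) → ℕ := fun i => i.elim 1 (fun i => i.1)
  let sf : Option (Σ _ : ℕ, ℕ) → ℕ := fun i => i.elim 1 (fun i => i.2)
  let xf : Option (Σ _ : ℕ, ℕ) → ℝ := fun i => i.elim a (fun i => 1 / ((SS m i.1).card : ℝ))
  have h0 := hPSD K ζ α ε hε (Option (Σ _ : ℕ, ℕ)) I pf sf xf (by
    intro i hi
    rcases i with _ | i
    · exact one_pos
    · have : i ∈ P.sigma fun p => SS m p := by simpa [I] using hi
      exact (hP i.1 (mem_sigma.1 this).1).1.pos)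
  have e0 : ∑ i ∈ I, ∑ j ∈ I, xf i * xf j * EP ζ α ε (pf i) (pf j) (sf i) (sf j) =
      a ^ 2 * EP ζ α ε 1 1 1 1 +
      2 * a * (∑ p ∈ P, ∑ s ∈ SS m p, 1 / ((SS m p).card : ℝ) * EP ζ α ε p 1 s 1) +
      ∑ p ∈ P, ∑ q ∈ P, ∑ t ∈ SS m q, ∑ s ∈ SS m p,
        1 / ((SS m p).card : ℝ) * (1 / ((SS m q).card : ℝ)) * EP ζ α ε p q s t := by
    have e1 : ∀ i, ∑ j ∈ I, xf i * xf j * EP ζ α ε (pf i) (pf j) (sf i) (sf j) =
        xf i * a * EP ζ α ε (pf i) 1 (sf i) 1 + ∑ q ∈ P, ∑ t ∈ SS m q,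
          xf i * (1 / ((SS m q).card : ℝ)) * EP ζ α ε (pf i) q (sf i) t := by
      intro i
      rw [Finset.sum_insertNone, Finset.sum_sigma]
      rfl
    rw [Finset.sum_congr rfl (fun i _ => e1 i), Finset.sum_insertNone, Finset.sum_sigma]
    have e2 : xf none * a * EP ζ α ε (pf none) 1 (sf none) 1 + ∑ q ∈ P, ∑ t ∈ SS m q,
          xf none * (1 / ((SS m q).card : ℝ)) * EP ζ α ε (pf none) q (sf none) t =
        a ^ 2 * EP ζ α ε 1 1 1 1 +
          a * (∑ p ∈ P, ∑ s ∈ SS m p, 1 / ((SS m p).card : ℝ) * EP ζ α ε p 1 s 1) := by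
      change a * a * EP ζ α ε 1 1 1 1 + ∑ q ∈ P, ∑ t ∈ SS m q,
          a * (1 / ((SS m q).card : ℝ)) * EP ζ α ε 1 q 1 t = _
      rw [Finset.mul_sum]
      congr 1
      · ring
      · refine Finset.sum_congr rfl fun q _ => ?_
        rw [Finset.mul_sum]
        refine Finset.sum_congr rfl fun t _ => ?_
        rw [EP_symm ζ α ε 1 q 1 t]
        ring
    rw [e2]
    have e3 : ∑ p ∈ P, ∑ s ∈ SS m p, (xf (some ⟨p, s⟩) * a *
          EP ζ α ε (pf (some ⟨p, s⟩)) 1 (sf (some ⟨p, s⟩)) 1 + ∑ q ∈ P, ∑ t ∈ SS m q,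
          xf (some ⟨p, s⟩) * (1 / ((SS m q).card : ℝ)) *
            EP ζ α ε (pf (some ⟨p, s⟩)) q (sf (some ⟨p, s⟩)) t) =
        a * (∑ p ∈ P, ∑ s ∈ SS m p, 1 / ((SS m p).card : ℝ) * EP ζ α ε p 1 s 1) +
      ∑ p ∈ P, ∑ q ∈ P, ∑ t ∈ SS m q, ∑ s ∈ SS m p,
        1 / ((SS m p).card : ℝ) * (1 / ((SS m q).card : ℝ)) * EP ζ α ε p q s t := by
      rw [Finset.mul_sum, ← Finset.sum_add_distrib]
      refine Finset.sum_congr rfl fun p _ => ?_
      rw [Finset.sum_add_distrib]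
      congr 1
      · rw [Finset.mul_sum]
        refine Finset.sum_congr rfl fun s _ => ?_
        change 1 / ((SS m p).card : ℝ) * a * EP ζ α ε p 1 s 1 = _
        ring
      · rw [Finset.sum_comm]
        refine Finset.sum_congr rfl fun q _ => ?_
        rw [Finset.sum_comm]
        rfl
    rw [e3]
    ring
  rw [e0] at h0
  -- the three bounds
  have B1 : ∀ p ∈ P, ∑ s ∈ SS m p, 1 / ((SS m p).card : ℝ) * EP ζ α ε p 1 s 1 ≤
      n * (-(Real.log p / ee m ζ α p) + (p + 1) * μ) := by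
    intro p hp
    rw [← Finset.mul_sum]
    have h3 : ∑ s ∈ SS m p, EP ζ α ε p 1 s 1 ≤ (SS m p).card *
        (n * (-(Real.log p / ee m ζ α p) + (p + 1) * μ)) := by
      rw [← nsmul_eq_mul]
      apply Finset.sum_le_card_nsmul
      intro s hs
      exact b1 hGEN hFR0 hFR1 hNV hc ε hε (hP p hp).1 (hP p hp).2 hs
    calc _ ≤ 1 / ((SS m p).card : ℝ) * ((SS m p).card *
        (n * (-(Real.log p / ee m ζ α p) + (p + 1) * μ))) :=
          mul_le_mul_of_nonneg_left h3 (hw p hp).le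
      _ = ((SS m p).card * (1 / ((SS m p).card : ℝ))) *
          (n * (-(Real.log p / ee m ζ α p) + (p + 1) * μ)) := by ring
      _ = _ := by rw [hw1 p hp, one_mul]
  have B2 : ∀ p ∈ P, ∀ q ∈ P, p ≠ q → ∑ t ∈ SS m q, ∑ s ∈ SS m p,
        1 / ((SS m p).card : ℝ) * (1 / ((SS m q).card : ℝ)) * EP ζ α ε p q s t ≤
      n * ((p + q) * μ) := by
    intro p hp q hq hpq
    have h3 : ∑ t ∈ SS m q, ∑ s ∈ SS m p,
        1 / ((SS m p).card : ℝ) * (1 / ((SS m q).card : ℝ)) * EP ζ α ε p q s t ≤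
        ∑ t ∈ SS m q, ∑ s ∈ SS m p,
        1 / ((SS m p).card : ℝ) * (1 / ((SS m q).card : ℝ)) * (n * ((p + q) * μ)) := by
      refine Finset.sum_le_sum fun t ht => Finset.sum_le_sum fun s hs => ?_
      exact mul_le_mul_of_nonneg_left
        (b2 hGEN hNRM hNV hc ε hε (hP p hp).1 (hP q hq).1 hpq hs ht)
        (mul_pos (hw p hp) (hw q hq)).le
    refine h3.trans (le_of_eq ?_)
    rw [Finset.sum_const, Finset.sum_const, nsmul_eq_mul, nsmul_eq_mul]
    calc _ = ((SS m p).card * (1 / ((SS m p).card : ℝ))) *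
          ((SS m q).card * (1 / ((SS m q).card : ℝ))) * (n * ((p + q) * μ)) := by ring
      _ = _ := by rw [hw1 p hp, hw1 q hq, one_mul, one_mul]
  have B3 : ∀ p ∈ P, ∑ t ∈ SS m p, ∑ s ∈ SS m p,
        1 / ((SS m p).card : ℝ) * (1 / ((SS m p).card : ℝ)) * EP ζ α ε p p s t ≤
      n * (R / ee m ζ α p - (1 - 1 / ee m ζ α p) * Real.log p + 2 * p * μ) := by
    intro p hp
    set B : ℝ := n * (R / ee m ζ α p - (1 - 1 / ee m ζ α p) * Real.log p + 2 * p * μ) with hB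
    have h3 : ∀ t ∈ SS m p, ∑ s ∈ SS m p,
        1 / ((SS m p).card : ℝ) * (1 / ((SS m p).card : ℝ)) * EP ζ α ε p p s t ≤
        1 / ((SS m p).card : ℝ) * (1 / ((SS m p).card : ℝ)) * ((SS m p).card * B) := by
      intro t ht
      rw [← Finset.mul_sum]
      exact mul_le_mul_of_nonneg_left
        (b3 hGEN hSLF hRAM hFX hc ε hε hε' hR (hP p hp).1 (hP p hp).2 ht)
        (mul_pos (hw p hp) (hw p hp)).le
    refine (Finset.sum_le_sum h3).trans (le_of_eq ?_)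
    rw [Finset.sum_const, nsmul_eq_mul]
    calc _ = ((SS m p).card * (1 / ((SS m p).card : ℝ))) *
          ((SS m p).card * (1 / ((SS m p).card : ℝ))) * B := by ring
      _ = _ := by rw [hw1 p hp, one_mul, one_mul]
  have B4 : ∑ p ∈ P, ∑ q ∈ P, ∑ t ∈ SS m q, ∑ s ∈ SS m p,
        1 / ((SS m p).card : ℝ) * (1 / ((SS m q).card : ℝ)) * EP ζ α ε p q s t ≤
      ∑ p ∈ P, (n * (R / ee m ζ α p - (1 - 1 / ee m ζ α p) * Real.log p + 2 * p * μ) +
        ∑ q ∈ P.erase p, n * ((p + q) * μ)) := by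
    refine Finset.sum_le_sum fun p hp => ?_
    rw [← Finset.add_sum_erase P _ hp]
    refine add_le_add (B3 p hp) (Finset.sum_le_sum fun q hq => ?_)
    exact B2 p hp q (Finset.mem_of_mem_erase hq) (Finset.ne_of_mem_erase hq).symm
  have B5 : a ^ 2 * EP ζ α ε 1 1 1 1 ≤ a ^ 2 * (n * R) := mul_le_mul_of_nonneg_left hR (sq_nonneg a)
  have B6 : 2 * a * (∑ p ∈ P, ∑ s ∈ SS m p, 1 / ((SS m p).card : ℝ) * EP ζ α ε p 1 s 1) ≤
      2 * a * ∑ p ∈ P, n * (-(Real.log p / ee m ζ α p) + (p + 1) * μ) :=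
    mul_le_mul_of_nonneg_left (Finset.sum_le_sum B1) (by positivity)
  have B7 : 0 ≤ n * rhs R μ (ee m ζ α) P a := by
    refine (h0.trans (add_le_add (add_le_add B5 B6) B4)).trans (le_of_eq ?_)
    unfold rhs
    rw [Finset.sum_add_distrib, ← Finset.mul_sum, ← Finset.mul_sum]
    have e4 : ∑ p ∈ P, ∑ q ∈ P.erase p, n * (((p : ℝ) + q) * μ) =
        n * ∑ p ∈ P, ∑ q ∈ P.erase p, ((p : ℝ) + q) * μ := by
      rw [Finset.mul_sum]
      exact Finset.sum_congr rfl fun p _ => by rw [Finset.mul_sum]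
    rw [e4]
    ring
  exact nonneg_of_mul_nonneg_right B7 hn0

end Pool.Agent.Y578.RL
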