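import Pool.Agent.Y947.RL.Stm

/-!
# Project RL of helper947, statement J0 (helper578)

Relative characteristic polynomials over a cyclotomic field have coefficients in `ℤ[ζ]`.
-/

set_option autoImplicit false

open Finset Polynomial Module IntermediateField IntermediateField.AdjoinSimple

namespace Pool.Agent.Y578.RL

/-- the product of the linear factors of the conjugates of the generator of a power basis -/
lemma prod_gen (L S E : Type*) [Field L] [Field S] [Field E] [Algebra L S] [Algebra L E]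
    [IsAlgClosed E] (pb : PowerBasis L S) (hs : IsSeparable L pb.gen) :
    (@Finset.univ _ (PowerBasis.AlgHom.fintype pb)).prod
      (fun σ : S →ₐ[L] E => (X - C (σ pb.gen) : E[X])) =
      (minpoly L pb.gen).map (algebraMap L E) := by
  classical
  have hm : ((minpoly L pb.gen).map (algebraMap L E)).Monic :=
    (minpoly.monic pb.isIntegral_gen).map _
  conv_rhs => rw [Splits.eq_prod_roots_of_monic (IsAlgClosed.splits _) hm]
  rw [@Fintype.prod_equiv (S →ₐ[L] E) _ _ (PowerBasis.AlgHom.fintype pb) _ _ pb.liftEquiv'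
    (fun σ => (X - C (σ pb.gen) : E[X])) (fun x => (X - C (x : E) : E[X])) ?_]
  · rw [Finset.prod_mem_multiset _ _ (fun x => (X - C (x : E) : E[X])) (fun _ => rfl),
      Finset.prod_eq_multiset_prod, Multiset.toFinset_val,
      Multiset.dedup_eq_self.mpr]
    exact nodup_roots (.map hs)
  · intro σ; simp only [PowerBasis.liftEquiv'_apply_coe]

/-- the product of the linear factors of the conjugates of `β` -/
lemma prod_emb (L K E : Type*) [Field L] [Field K] [Field E] [Algebra L K] [Algebra L E]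
    [FiniteDimensional L K] [Algebra.IsSeparable L K] [IsAlgClosed E] (β : K) :
    ∏ τ : K →ₐ[L] E, (X - C (τ β) : E[X]) =
      ((minpoly L β).map (algebraMap L E)) ^ (finrank L⟮β⟯ K) := by
  have hx : IsIntegral L β := Algebra.IsSeparable.isIntegral L β
  have i1 : Algebra.IsSeparable L L⟮β⟯ := Algebra.isSeparable_tower_bot_of_isSeparable L L⟮β⟯ K
  have i2 : Algebra.IsSeparable L⟮β⟯ K := Algebra.isSeparable_tower_top_of_isSeparable L L⟮β⟯ K
  let pb := adjoin.powerBasis hx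
  let : Fintype (L⟮β⟯ →ₐ[L] E) := PowerBasis.AlgHom.fintype pb
  have h1 : ∏ τ : K →ₐ[L] E, (X - C (τ β) : E[X]) =
      (∏ σ : L⟮β⟯ →ₐ[L] E, (X - C (σ pb.gen) : E[X])) ^ finrank L⟮β⟯ K := by
    rw [Fintype.prod_equiv algHomEquivSigma (fun τ : K →ₐ[L] E => (X - C (τ β) : E[X]))
      (fun τ : (Σ f : L⟮β⟯ →ₐ[L] E, @AlgHom L⟮β⟯ K E _ _ _ _ f.toRingHom.toAlgebra) =>
        (X - C (τ.1 pb.gen) : E[X])),
      ← Finset.univ_sigma_univ, Finset.prod_sigma, ← Finset.prod_pow]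
    · refine Finset.prod_congr rfl fun σ _ => ?_
      let : Algebra L⟮β⟯ E := σ.toRingHom.toAlgebra
      simp_rw [Finset.prod_const]
      congr
      exact AlgHom.card L⟮β⟯ K E
    · intro σ
      simp only [algHomEquivSigma, Equiv.coe_fn_mk, AlgHom.domRestrict, AlgHom.comp_apply,
        IsScalarTower.coe_toAlgHom']
      rfl
  rw [h1]
  congr 1
  have h2 := prod_gen L L⟮β⟯ E pb (Algebra.IsSeparable.isSeparable L _)
  have h3 : minpoly L pb.gen = minpoly L β := by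
    have : pb.gen = AdjoinSimple.gen L β := adjoin.powerBasis_gen hx
    rw [this]; exact minpoly_gen L β
  rw [h3] at h2
  exact h2

/-- the algebra homomorphisms over `ℚ⟮ζ⟯` are the embeddings with a given value at `ζ` -/
lemma prod_cls (K : Type) [Field K] [NumberField K] (ζ : K) (σ : K →ₐ[ℚ] ℂ)
    (f : (K →ₐ[ℚ] ℂ) → ℂ[X]) (g : ∀ (_ : Algebra ℚ⟮ζ⟯ ℂ), (K →ₐ[ℚ⟮ζ⟯] ℂ) → ℂ[X])
    (hfg : ∀ (i : Algebra ℚ⟮ζ⟯ ℂ) (τ : K →ₐ[ℚ] ℂ) (τ' : K →ₐ[ℚ⟮ζ⟯] ℂ), (∀ x, τ x = τ' x) →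
      f τ = g i τ') :
    letI i : Algebra ℚ⟮ζ⟯ ℂ := (σ.toRingHom.comp (algebraMap ℚ⟮ζ⟯ K)).toAlgebra
    ∏ τ' : K →ₐ[ℚ⟮ζ⟯] ℂ, g i τ' = ∏ τ ∈ Pool.Agent.Y947.RL.cls ζ (σ ζ), f τ := by
  classical
  let i : Algebra ℚ⟮ζ⟯ ℂ := (σ.toRingHom.comp (algebraMap ℚ⟮ζ⟯ K)).toAlgebra
  have hi : ∀ x : ℚ⟮ζ⟯, algebraMap ℚ⟮ζ⟯ ℂ x = σ (x : K) := fun x => rfl
  let e : (K →ₐ[ℚ⟮ζ⟯] ℂ) → (K →ₐ[ℚ] ℂ) := fun τ' => τ'.toRingHom.toRatAlgHom
  refine Finset.prod_bij (fun τ' _ => e τ') ?_ ?_ ?_ ?_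
  · intro τ' _
    simp only [Pool.Agent.Y947.RL.cls, Finset.mem_filter, Finset.mem_univ, true_and]
    change τ' ζ = σ ζ
    exact τ'.commutes (AdjoinSimple.gen ℚ ζ)
  · intro a _ b _ hab
    ext x
    exact congrArg (fun t : K →ₐ[ℚ] ℂ => t x) hab
  · intro τ hτ
    simp only [Pool.Agent.Y947.RL.cls, Finset.mem_filter, Finset.mem_univ, true_and] at hτ
    have h2 : ∀ x : ℚ⟮ζ⟯, τ (x : K) = σ (x : K) := by
      intro x
      have h3 : τ.comp (ℚ⟮ζ⟯.val) = σ.comp (ℚ⟮ζ⟯.val) := by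
        apply (IntermediateField.adjoin.powerBasis (Algebra.IsIntegral.isIntegral (R := ℚ) ζ)).algHom_ext
        simpa [IntermediateField.adjoin.powerBasis_gen] using hτ
      exact congrArg (fun t : ℚ⟮ζ⟯ →ₐ[ℚ] ℂ => t x) h3
    refine ⟨{ τ.toRingHom with commutes' := fun r => ?_ }, Finset.mem_univ _, ?_⟩
    · change τ (algebraMap ℚ⟮ζ⟯ K r) = _
      rw [hi]
      exact h2 r
    · ext x
      rfl
  · intro τ' _
    exact (hfg i (e τ') τ' (fun x => rfl)).symm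

open Pool.Agent.Y947.RL in
/-- statement J0 -/
theorem j0 : S_J0 := by
  intro K _ _ m ζ hm hζ β hβ
  have : NeZero m := ⟨hm.ne'⟩
  let z : ℚ⟮ζ⟯ := AdjoinSimple.gen ℚ ζ
  have hzK : algebraMap ℚ⟮ζ⟯ K z = ζ := AdjoinSimple.algebraMap_gen ℚ ζ
  have hz : IsPrimitiveRoot z m := by
    have := hζ
    rw [← hzK] at this
    exact this.of_map_of_injective (algebraMap ℚ⟮ζ⟯ K).injective
  have : IsCyclotomicExtension {m} ℚ ℚ⟮ζ⟯ := hζ.intermediateField_adjoin_isCyclotomicExtension ℚ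
  have hic := IsCyclotomicExtension.Rat.isIntegralClosure_adjoin_singleton hz
  -- the minimal polynomial over the cyclotomic field has integral coefficients
  have hint : ∀ k, ((minpoly ℚ⟮ζ⟯ β)).coeff k ∈ Set.range
      ((aeval z : ℤ[X] →ₐ[ℤ] ℚ⟮ζ⟯).toRingHom) := by
    intro k
    have h1 : IsIntegral ℤ ((minpoly ℚ⟮ζ⟯ β).coeff k) := by
      have h2 : IsIntegral (NumberField.RingOfIntegers ℚ⟮ζ⟯) β := hβ.tower_top
      have h3 := minpoly.isIntegrallyClosed_eq_field_fractions' (R := NumberField.RingOfIntegers ℚ⟮ζ⟯)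
        ℚ⟮ζ⟯ h2
      rw [h3, coeff_map]
      exact NumberField.RingOfIntegers.isIntegral_coe _
    obtain ⟨y, hy⟩ := hic.isIntegral_iff.1 h1
    have h4 : (y : ℚ⟮ζ⟯) ∈ (aeval z : ℤ[X] →ₐ[ℤ] ℚ⟮ζ⟯).range := by
      rw [← Algebra.adjoin_singleton_eq_range_aeval]
      exact y.2
    obtain ⟨q, hq⟩ := h4
    exact ⟨q, hq.trans hy⟩
  obtain ⟨Q, hQ1, -, hQ2⟩ := lifts_and_natDegree_eq_and_monic
    ((lifts_iff_coeff_lifts _).2 hint) (minpoly.monic (hβ.tower_top (A := ℚ⟮ζ⟯)))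
  refine ⟨Q ^ (finrank (ℚ⟮ζ⟯)⟮β⟯ K), hQ2.pow _, fun σ => ?_⟩
  have h5 := prod_cls K ζ σ (fun τ => X - C (τ β)) (fun i τ' => X - C (τ' β))
    (fun i τ τ' h => by rw [h β])
  rw [← h5]
  let i : Algebra ℚ⟮ζ⟯ ℂ := (σ.toRingHom.comp (algebraMap ℚ⟮ζ⟯ K)).toAlgebra
  have h6 := prod_emb ℚ⟮ζ⟯ K ℂ β
  rw [h6, sp, Polynomial.map_pow]
  congr 1
  rw [← hQ1, Polynomial.map_map]
  congr 1
  ext
  · simp
  · have : σ ζ = σ (algebraMap ℚ⟮ζ⟯ K z) := by rw [hzK]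
    simp [this]
    rfl

end Pool.Agent.Y578.RL
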